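import Mathlib

/-!
# Abstract lemmas for module InvA
-/

open MeasureTheory Set
open scoped ComplexConjugate

namespace Pool.Agent.H19.Pl

/-- Multiplication by a complex number in an integral over the plane. -/
lemma integral_cmul {g : ℂ} (hg : g ≠ 0) (G : ℂ → ℂ) :
    ∫ h : ℂ, G h = ((‖g‖ ^ 2 : ℝ) : ℂ) * ∫ d : ℂ, G (g * d) := by
  have hdet : LinearMap.det (LinearMap.mulLeft ℝ g) = ‖g‖ ^ 2 := by
    have h1 : Algebra.norm ℝ g = LinearMap.det (LinearMap.mulLeft ℝ g) := rfl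
    rw [← h1, Algebra.norm_complex_apply, Complex.normSq_eq_norm_sq]
  have hg' : 0 < ‖g‖ := norm_pos_iff.2 hg
  have hd0 : LinearMap.det (LinearMap.mulLeft ℝ g) ≠ 0 := by rw [hdet]; positivity
  have hmap := Measure.map_linearMap_addHaar_eq_smul_addHaar (volume : Measure ℂ) hd0
  have he : ∫ d : ℂ, G (g * d) = ∫ y, G y ∂(Measure.map (LinearMap.mulLeft ℝ g) volume) := by
    have := (Homeomorph.mulLeft₀ g hg).toMeasurableEquiv.measurableEmbedding.integral_map
      (μ := (volume : Measure ℂ)) G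
    exact this.symm
  rw [he, hmap, integral_smul_measure, hdet]
  rw [ENNReal.toReal_ofReal (abs_nonneg _), abs_of_nonneg (by positivity), Complex.real_smul,
    ← mul_assoc, ← Complex.ofReal_mul, mul_inv_cancel₀ (by positivity), Complex.ofReal_one, one_mul]

section

variable {Y : Type} [MeasurableSpace Y] {ν : Measure Y} [SFinite ν] {S : Set Y}

lemma integrable_fub (hS : MeasurableSet S) (hSf : ν S ≠ ⊤) {F : ℝ → Y → ℂ}
    (hF : Measurable (Function.uncurry F)) {B : ℝ} (hB : ∀ τ y, ‖F τ y‖ ≤ B)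
    (hs : ∀ τ, ∀ y ∉ S, F τ y = 0) (a b : ℝ) :
    Integrable (Function.uncurry F) ((volume.restrict (Ioc a b)).prod ν) := by
  have hgi : Integrable ((Set.univ ×ˢ S : Set (ℝ × Y)).indicator (fun _ => B))
      ((volume.restrict (Ioc a b)).prod ν) := by
    rw [integrable_indicator_iff (MeasurableSet.univ.prod hS)]
    refine integrableOn_const ?_ enorm_ne_top
    rw [Measure.prod_prod, Measure.restrict_apply_univ, Real.volume_Ioc]
    exact ENNReal.mul_ne_top ENNReal.ofReal_ne_top hSf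
  refine hgi.mono' hF.aestronglyMeasurable (Filter.Eventually.of_forall ?_)
  rintro ⟨τ, y⟩
  by_cases hy : y ∈ S
  · have hm : ((τ, y) : ℝ × Y) ∈ (Set.univ ×ˢ S : Set (ℝ × Y)) := Set.mk_mem_prod (Set.mem_univ _) hy
    rw [Set.indicator_of_mem hm]
    exact hB τ y
  · have hm : ((τ, y) : ℝ × Y) ∉ (Set.univ ×ˢ S : Set (ℝ × Y)) := fun h => hy h.2
    rw [Set.indicator_of_notMem hm]
    change ‖F τ y‖ ≤ 0
    rw [hs τ y hy, norm_zero]

lemma fub (hS : MeasurableSet S) (hSf : ν S ≠ ⊤) {F : ℝ → Y → ℂ}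
    (hF : Measurable (Function.uncurry F)) {B : ℝ} (hB : ∀ τ y, ‖F τ y‖ ≤ B)
    (hs : ∀ τ, ∀ y ∉ S, F τ y = 0) {a b : ℝ} (hab : a ≤ b) :
    ∫ τ in a..b, ∫ y, F τ y ∂ν = ∫ y, (∫ τ in a..b, F τ y) ∂ν := by
  simp only [intervalIntegral.integral_of_le hab]
  exact integral_integral_swap (integrable_fub hS hSf hF hB hs a b)

lemma meas_int {F : ℝ → Y → ℂ} (hF : Measurable (Function.uncurry F)) {a b : ℝ} (hab : a ≤ b) :
    Measurable fun y => ∫ τ in a..b, F τ y := by
  simp only [intervalIntegral.integral_of_le hab]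
  have h1 : StronglyMeasurable (Function.uncurry F) := hF.stronglyMeasurable
  exact (StronglyMeasurable.integral_prod_left (μ := volume.restrict (Ioc a b)) h1).measurable

/-- Cauchy-Schwarz on a set of finite measure. -/
lemma cs_set (hS : MeasurableSet S) (hSf : ν S ≠ ⊤) {J : Y → ℂ} (hJ : Measurable J) {B : ℝ}
    (hB : ∀ y, ‖J y‖ ≤ B) (hs : ∀ y ∉ S, J y = 0) :
    (∫ y, ‖J y‖ ∂ν) ^ 2 ≤ (ν S).toReal * ∫ y, ‖J y‖ ^ 2 ∂ν := by
  have hind : ∀ t : ℝ, ∀ y, (‖J y‖ - S.indicator (fun _ => t) y) ^ 2 =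
      ‖J y‖ ^ 2 - 2 * t * ‖J y‖ + S.indicator (fun _ => t ^ 2) y := by
    intro t y
    by_cases hy : y ∈ S
    · rw [Set.indicator_of_mem hy, Set.indicator_of_mem hy]; ring
    · rw [Set.indicator_of_notMem hy, Set.indicator_of_notMem hy, hs y hy]; simp
  have hi : ∀ c : ℝ, Integrable (S.indicator (fun _ => c)) ν := by
    intro c
    rw [integrable_indicator_iff hS]
    exact integrableOn_const hSf enorm_ne_top
  have h1 : Integrable (fun y => ‖J y‖) ν := by
    refine (hi B).mono' hJ.norm.aestronglyMeasurable (Filter.Eventually.of_forall fun y => ?_)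
    rw [norm_norm]
    by_cases hy : y ∈ S
    · rw [Set.indicator_of_mem hy]; exact hB y
    · rw [Set.indicator_of_notMem hy, hs y hy, norm_zero]
  have h2 : Integrable (fun y => ‖J y‖ ^ 2) ν := by
    refine (hi (B ^ 2)).mono' (hJ.norm.pow_const 2).aestronglyMeasurable
      (Filter.Eventually.of_forall fun y => ?_)
    rw [Real.norm_of_nonneg (by positivity)]
    by_cases hy : y ∈ S
    · rw [Set.indicator_of_mem hy]; exact pow_le_pow_left₀ (norm_nonneg _) (hB y) 2
    · rw [Set.indicator_of_notMem hy, hs y hy, norm_zero]; simp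
  have hq : ∀ t : ℝ, 0 ≤ (ν S).toReal * (t * t) + (-2 * ∫ y, ‖J y‖ ∂ν) * t +
      ∫ y, ‖J y‖ ^ 2 ∂ν := by
    intro t
    have h3 : 0 ≤ ∫ y, (‖J y‖ - S.indicator (fun _ => t) y) ^ 2 ∂ν :=
      integral_nonneg fun y => sq_nonneg _
    simp_rw [hind t] at h3
    have h5 : ∫ y, (‖J y‖ ^ 2 - 2 * t * ‖J y‖ + S.indicator (fun _ => t ^ 2) y) ∂ν =
        (∫ y, ‖J y‖ ^ 2 ∂ν) - 2 * t * (∫ y, ‖J y‖ ∂ν) + (ν S).toReal * t ^ 2 := by
      rw [integral_add (f := fun y => ‖J y‖ ^ 2 - 2 * t * ‖J y‖) (h2.sub (h1.const_mul (2 * t)))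
        (hi _), integral_sub h2 (h1.const_mul (2 * t)), integral_const_mul,
        integral_indicator_const _ hS, Measure.real, smul_eq_mul]
    rw [h5] at h3
    linarith
  have h4 := discrim_le_zero hq
  rw [discrim] at h4
  linarith

/-- The `T T*` inequality. -/
theorem tt_star (hS : MeasurableSet S) (hSf : ν S ≠ ⊤) {J : ℝ → Y → ℂ}
    (hJ : Measurable (Function.uncurry J)) {B : ℝ} (hB : ∀ τ y, ‖J τ y‖ ≤ B)
    (hs : ∀ τ, ∀ y ∉ S, J τ y = 0) {u : Y → ℂ} (hu : Measurable u) (hu1 : ∀ y, ‖u y‖ ≤ 1)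
    {a b : ℝ} (hab : a ≤ b) :
    ‖∫ τ in a..b, ∫ y, u y * J τ y ∂ν‖ ^ 2 ≤
      (ν S).toReal * ‖∫ τ in a..b, ∫ τ' in a..b, ∫ y, J τ y * conj (J τ' y) ∂ν‖ := by
  have hJ2 : ∀ τ, Measurable (J τ) := fun τ => hJ.comp measurable_prodMk_left
  have hB0 : ∀ τ y, ‖J τ y‖ ≤ |B| := fun τ y => (hB τ y).trans (le_abs_self B)
  set JA : Y → ℂ := fun y => ∫ τ in a..b, J τ y with hJA
  have hJAm : Measurable JA := meas_int hJ hab
  have hJAb : ∀ y, ‖JA y‖ ≤ |B| * |b - a| := fun y =>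
    intervalIntegral.norm_integral_le_of_norm_le_const fun τ _ => hB0 τ y
  have hJAs : ∀ y ∉ S, JA y = 0 := by
    intro y hy
    rw [hJA]
    simp [hs _ y hy]
  -- left side
  have hl : ∫ τ in a..b, ∫ y, u y * J τ y ∂ν = ∫ y, u y * JA y ∂ν := by
    rw [fub hS hSf (F := fun τ y => u y * J τ y) (B := |B|) ?_ ?_ ?_ hab]
    · simp only [intervalIntegral.integral_const_mul, hJA]
    · exact (hu.comp measurable_snd).mul hJ
    · intro τ y
      rw [norm_mul]
      calc ‖u y‖ * ‖J τ y‖ ≤ 1 * |B| := mul_le_mul (hu1 y) (hB0 τ y) (norm_nonneg _) zero_le_one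
        _ = |B| := one_mul _
    · intro τ y hy
      change u y * J τ y = 0
      rw [hs τ y hy, mul_zero]
  have hl2 : ‖∫ y, u y * JA y ∂ν‖ ≤ ∫ y, ‖JA y‖ ∂ν := by
    refine (norm_integral_le_integral_norm _).trans (integral_mono_of_nonneg
      (Filter.Eventually.of_forall fun y => norm_nonneg _) ?_
      (Filter.Eventually.of_forall fun y => ?_))
    · have hi : Integrable (S.indicator (fun _ => |B| * |b - a|)) ν := by
        rw [integrable_indicator_iff hS]
        exact integrableOn_const hSf enorm_ne_top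
      refine hi.mono' hJAm.norm.aestronglyMeasurable (Filter.Eventually.of_forall fun y => ?_)
      rw [norm_norm]
      by_cases hy : y ∈ S
      · rw [Set.indicator_of_mem hy]; exact hJAb y
      · rw [Set.indicator_of_notMem hy, hJAs y hy, norm_zero]
    · change ‖u y * JA y‖ ≤ ‖JA y‖
      rw [norm_mul]
      calc ‖u y‖ * ‖JA y‖ ≤ 1 * ‖JA y‖ := mul_le_mul_of_nonneg_right (hu1 y) (norm_nonneg _)
        _ = ‖JA y‖ := one_mul _
  -- right side
  have hr : ∫ τ in a..b, ∫ τ' in a..b, ∫ y, J τ y * conj (J τ' y) ∂ν =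
      ((∫ y, ‖JA y‖ ^ 2 ∂ν : ℝ) : ℂ) := by
    have e1 : ∀ y, (∫ τ' in a..b, conj (J τ' y)) = conj (JA y) := by
      intro y
      rw [hJA]
      simp only [intervalIntegral.integral_of_le hab]
      exact integral_conj
    have e2 : ∀ τ, ∫ τ' in a..b, ∫ y, J τ y * conj (J τ' y) ∂ν = ∫ y, J τ y * conj (JA y) ∂ν := by
      intro τ
      rw [fub hS hSf (F := fun τ' y => J τ y * conj (J τ' y)) (B := |B| * |B|) ?_ ?_ ?_ hab]
      · refine integral_congr_ae (Filter.Eventually.of_forall fun y => ?_)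
        change ∫ τ' in a..b, J τ y * conj (J τ' y) = J τ y * conj (JA y)
        rw [intervalIntegral.integral_const_mul, e1]
      · exact ((hJ2 τ).comp measurable_snd).mul (Complex.continuous_conj.measurable.comp hJ)
      · intro τ' y
        rw [norm_mul, RCLike.norm_conj]
        exact mul_le_mul (hB0 τ y) (hB0 τ' y) (norm_nonneg _) (abs_nonneg _)
      · intro τ' y hy
        change J τ y * conj (J τ' y) = 0
        rw [hs τ y hy, zero_mul]
    simp only [e2]
    rw [fub hS hSf (F := fun τ y => J τ y * conj (JA y)) (B := |B| * (|B| * |b - a|)) ?_ ?_ ?_ hab]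
    · rw [← integral_complex_ofReal]
      refine integral_congr_ae (Filter.Eventually.of_forall fun y => ?_)
      change ∫ τ in a..b, J τ y * conj (JA y) = ((‖JA y‖ ^ 2 : ℝ) : ℂ)
      rw [intervalIntegral.integral_mul_const]
      change JA y * conj (JA y) = ((‖JA y‖ ^ 2 : ℝ) : ℂ)
      rw [Complex.mul_conj, Complex.normSq_eq_norm_sq]
    · exact hJ.mul (Complex.continuous_conj.measurable.comp (hJAm.comp measurable_snd))
    · intro τ y
      rw [norm_mul, RCLike.norm_conj]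
      exact mul_le_mul (hB0 τ y) (hJAb y) (norm_nonneg _) (abs_nonneg _)
    · intro τ y hy
      change J τ y * conj (JA y) = 0
      rw [hs τ y hy, zero_mul]
  rw [hl, hr, Complex.norm_real, Real.norm_of_nonneg (integral_nonneg fun y => by positivity)]
  calc ‖∫ y, u y * JA y ∂ν‖ ^ 2 ≤ (∫ y, ‖JA y‖ ∂ν) ^ 2 :=
        pow_le_pow_left₀ (norm_nonneg _) hl2 2
    _ ≤ _ := cs_set hS hSf hJAm hJAb hJAs

end

end Pool.Agent.H19.Pl
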