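import Pool.Agent.H19.Pl.Ia1

/-!
# Splitting a double integral into cells
-/

open MeasureTheory Set
open scoped ComplexConjugate

namespace Pool.Agent.H19.Pl

lemma ii_of_bdd {k : ℝ → ℂ} (hk : Measurable k) {M : ℝ} (hM : ∀ τ, ‖k τ‖ ≤ M) (a b : ℝ) :
    IntervalIntegrable k volume a b := by
  have hc : IntervalIntegrable (fun _ : ℝ => M) volume a b := intervalIntegrable_const
  refine hc.mono_fun hk.aestronglyMeasurable (Filter.Eventually.of_forall fun τ => ?_)
  rw [Real.norm_eq_abs]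
  exact (hM τ).trans (le_abs_self M)

lemma meas_int' {K : ℝ → ℝ → ℂ} (hK : Measurable (Function.uncurry K)) {a b : ℝ} (hab : a ≤ b) :
    Measurable fun τ => ∫ τ' in a..b, K τ τ' := by
  simp only [intervalIntegral.integral_of_le hab]
  have h1 : StronglyMeasurable (Function.uncurry K) := hK.stronglyMeasurable
  exact (StronglyMeasurable.integral_prod_right (ν := volume.restrict (Ioc a b)) h1).measurable

lemma card_near (n i : ℕ) :
    ((Finset.range n).filter (fun l => ¬ (i + 3 ≤ l ∨ l + 3 ≤ i))).card ≤ 5 := by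
  have hsub : (Finset.range n).filter (fun l => ¬ (i + 3 ≤ l ∨ l + 3 ≤ i)) ⊆
      Finset.Icc (i - 2) (i + 2) := by
    intro l hl
    have h := (Finset.mem_filter.1 hl).2
    rw [Finset.mem_Icc]
    omega
  calc _ ≤ (Finset.Icc (i - 2) (i + 2)).card := Finset.card_le_card hsub
    _ ≤ 5 := by rw [Nat.card_Icc]; omega

lemma cells {K : ℝ → ℝ → ℂ} (hK : Measurable (Function.uncurry K)) {M : ℝ} (hM0 : 0 ≤ M)
    (hM : ∀ τ τ', ‖K τ τ'‖ ≤ M) (a0 l0 : ℝ) (hl : 0 < l0) (n : ℕ) {θ : ℝ} (hθ : 0 ≤ θ)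
    (h : ∀ i < n, ∀ l < n, (i + 3 ≤ l ∨ l + 3 ≤ i) →
      ‖∫ τ in (a0 + i * l0)..(a0 + i * l0 + l0), ∫ τ' in (a0 + l * l0)..(a0 + l * l0 + l0),
        K τ τ'‖ ≤ θ) :
    ‖∫ τ in a0..(a0 + n * l0), ∫ τ' in a0..(a0 + n * l0), K τ τ'‖ ≤
      n ^ 2 * θ + 5 * n * (M * l0 ^ 2) := by
  set t : ℕ → ℝ := fun i => a0 + i * l0 with ht
  have ht0 : t 0 = a0 := by simp [ht]
  have htn : t n = a0 + n * l0 := rfl
  have hts : ∀ i, t (i + 1) = t i + l0 := by intro i; simp only [ht]; push_cast; ring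
  have hle : ∀ i, t i ≤ t (i + 1) := fun i => by rw [hts]; linarith
  have hKτ : ∀ τ, Measurable (K τ) := fun τ => hK.comp measurable_prodMk_left
  have hcell : ∀ i l, ‖∫ τ in t i..t (i + 1), ∫ τ' in t l..t (l + 1), K τ τ'‖ ≤ M * l0 ^ 2 := by
    intro i l
    have h1 : ∀ τ, ‖∫ τ' in t l..t (l + 1), K τ τ'‖ ≤ M * l0 := by
      intro τ
      have := intervalIntegral.norm_integral_le_of_norm_le_const (a := t l) (b := t (l + 1))
        (f := K τ) (C := M) fun τ' _ => hM τ τ'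
      rwa [hts, add_sub_cancel_left, abs_of_pos hl, ← hts] at this
    have h2 := intervalIntegral.norm_integral_le_of_norm_le_const (a := t i) (b := t (i + 1))
      (f := fun τ => ∫ τ' in t l..t (l + 1), K τ τ') (C := M * l0) fun τ _ => h1 τ
    have h3 : |t (i + 1) - t i| = l0 := by rw [hts, add_sub_cancel_left, abs_of_pos hl]
    rw [h3] at h2
    calc _ ≤ M * l0 * l0 := h2
      _ = M * l0 ^ 2 := by ring
  have hin : ∀ τ, ∫ τ' in a0..(a0 + n * l0), K τ τ' =
      ∑ l ∈ Finset.range n, ∫ τ' in t l..t (l + 1), K τ τ' := by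
    intro τ
    rw [intervalIntegral.sum_integral_adjacent_intervals
      (fun k _ => ii_of_bdd (hKτ τ) (hM τ) _ _), ht0, htn]
  have hout : ∫ τ in a0..(a0 + n * l0), ∫ τ' in a0..(a0 + n * l0), K τ τ' =
      ∑ i ∈ Finset.range n, ∑ l ∈ Finset.range n,
        ∫ τ in t i..t (i + 1), ∫ τ' in t l..t (l + 1), K τ τ' := by
    have hmi : ∀ l, Measurable fun τ => ∫ τ' in t l..t (l + 1), K τ τ' := fun l =>
      meas_int' hK (hle l)
    have hbi : ∀ l τ, ‖∫ τ' in t l..t (l + 1), K τ τ'‖ ≤ M * l0 := by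
      intro l τ
      have := intervalIntegral.norm_integral_le_of_norm_le_const (a := t l) (b := t (l + 1))
        (f := K τ) (C := M) fun τ' _ => hM τ τ'
      rwa [hts, add_sub_cancel_left, abs_of_pos hl, ← hts] at this
    have hms : Measurable fun τ => ∑ l ∈ Finset.range n, ∫ τ' in t l..t (l + 1), K τ τ' :=
      Finset.measurable_sum _ fun l _ => hmi l
    have hbs : ∀ τ, ‖∑ l ∈ Finset.range n, ∫ τ' in t l..t (l + 1), K τ τ'‖ ≤
        ∑ l ∈ Finset.range n, M * l0 := fun τ =>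
      (norm_sum_le _ _).trans (Finset.sum_le_sum fun l _ => hbi l τ)
    simp_rw [hin]
    rw [← htn, ← ht0, ← intervalIntegral.sum_integral_adjacent_intervals
      (fun k _ => ii_of_bdd hms hbs _ _)]
    refine Finset.sum_congr rfl fun i _ => ?_
    rw [intervalIntegral.integral_finsetSum]
    intro l _
    exact ii_of_bdd (hmi l) (hbi l) _ _
  rw [hout]
  have hterm : ∀ i ∈ Finset.range n, ∀ l ∈ Finset.range n,
      ‖∫ τ in t i..t (i + 1), ∫ τ' in t l..t (l + 1), K τ τ'‖ ≤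
        θ + if ¬ (i + 3 ≤ l ∨ l + 3 ≤ i) then M * l0 ^ 2 else 0 := by
    intro i hi l hl'
    by_cases hc : i + 3 ≤ l ∨ l + 3 ≤ i
    · rw [if_neg (not_not.2 hc), add_zero, hts, hts]
      exact h i (Finset.mem_range.1 hi) l (Finset.mem_range.1 hl') hc
    · rw [if_pos hc]
      have := hcell i l
      linarith
  calc ‖∑ i ∈ Finset.range n, ∑ l ∈ Finset.range n,
        ∫ τ in t i..t (i + 1), ∫ τ' in t l..t (l + 1), K τ τ'‖
      ≤ ∑ i ∈ Finset.range n, ∑ l ∈ Finset.range n,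
        (θ + if ¬ (i + 3 ≤ l ∨ l + 3 ≤ i) then M * l0 ^ 2 else 0) :=
        (norm_sum_le _ _).trans (Finset.sum_le_sum fun i hi =>
          (norm_sum_le _ _).trans (Finset.sum_le_sum fun l hl' => hterm i hi l hl'))
    _ ≤ ∑ i ∈ Finset.range n, (n * θ + 5 * (M * l0 ^ 2)) := by
        refine Finset.sum_le_sum fun i _ => ?_
        rw [Finset.sum_add_distrib, Finset.sum_const, Finset.card_range, nsmul_eq_mul,
          ← Finset.sum_filter, Finset.sum_const, nsmul_eq_mul]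
        have h5 : (((Finset.range n).filter
            (fun l => ¬ (i + 3 ≤ l ∨ l + 3 ≤ i))).card : ℝ) ≤ 5 := by
          exact_mod_cast card_near n i
        have h6 : 0 ≤ M * l0 ^ 2 := by positivity
        have := mul_le_mul_of_nonneg_right h5 h6
        linarith
    _ = n ^ 2 * θ + 5 * n * (M * l0 ^ 2) := by
        rw [Finset.sum_const, Finset.card_range, nsmul_eq_mul]
        ring

end Pool.Agent.H19.Pl
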