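import Pool.Agent.H67.Pl.Basic
import Pool.Agent.H19.Pl.Ia2

/-!
# The kernel of module InvA
-/

open MeasureTheory Set
open scoped ComplexConjugate

namespace Pool.Agent.H19.Pl

open Pool.Agent.H67.Pl

/-- the lower constant -/
noncomputable def k0 (σ : ℂ) : ℝ := |σ.im| / (1 + 2 * ‖σ‖)

/-- the upper constant -/
noncomputable def k1 (σ : ℂ) : ℝ := 1 + ‖σ‖

lemma k1_pos (σ : ℂ) : 0 < k1 σ := by unfold k1; positivity

lemma k0_pos {σ : ℂ} (him : σ.im ≠ 0) : 0 < k0 σ :=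
  div_pos (abs_pos.2 him) (by positivity)

lemma k0_le {σ : ℂ} (him : σ.im ≠ 0) (τ : ℝ) : k0 σ * (1 + |τ|) ≤ ‖1 + τ * σ‖ := by
  have hb : |σ.im| ≤ ‖σ‖ := Complex.abs_im_le_norm σ
  have hb0 : 0 < |σ.im| := abs_pos.2 him
  have h1 : |τ| * |σ.im| ≤ ‖1 + τ * σ‖ := by
    have h := Complex.abs_im_le_norm (1 + τ * σ)
    have e : (1 + (τ : ℂ) * σ).im = τ * σ.im := by simp
    rwa [e, abs_mul] at h
  have h2 : 1 - |τ| * ‖σ‖ ≤ ‖1 + τ * σ‖ := by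
    have h := norm_sub_norm_le (1 : ℂ) (-(τ * σ))
    have e : ‖-((τ : ℂ) * σ)‖ = |τ| * ‖σ‖ := by simp
    rw [e, norm_one, sub_neg_eq_add] at h
    exact h
  have hτ : 0 ≤ |τ| := abs_nonneg τ
  rw [k0, div_mul_eq_mul_div, div_le_iff₀ (by positivity)]
  have h3 : 0 ≤ ‖1 + (τ : ℂ) * σ‖ := norm_nonneg _
  nlinarith [mul_nonneg hτ (norm_nonneg σ), mul_le_mul_of_nonneg_right hb hτ]

lemma s_ne {σ : ℂ} (him : σ.im ≠ 0) (τ : ℝ) : (1 : ℂ) + τ * σ ≠ 0 := by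
  intro h
  have h1 := k0_le him τ
  rw [h, norm_zero] at h1
  have h2 := k0_pos him
  have h3 : 0 ≤ |τ| := abs_nonneg τ
  nlinarith

lemma s_le (σ : ℂ) (τ : ℝ) : ‖(1 : ℂ) + τ * σ‖ ≤ k1 σ * (1 + |τ|) := by
  have h := norm_add_le (1 : ℂ) (τ * σ)
  have e : ‖(τ : ℂ) * σ‖ = |τ| * ‖σ‖ := by simp
  rw [norm_one, e] at h
  rw [k1]
  nlinarith [abs_nonneg τ, norm_nonneg σ]

lemma gk_ne {σ : ℂ} (him : σ.im ≠ 0) (τ : ℝ) : gk σ τ ≠ 0 := by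
  rw [gk]; exact one_div_ne_zero (s_ne him τ)

lemma gk_norm (σ : ℂ) (τ : ℝ) : ‖gk σ τ‖ = 1 / ‖(1 : ℂ) + τ * σ‖ := by
  rw [gk, norm_div, norm_one]

lemma gk_le {σ : ℂ} (him : σ.im ≠ 0) (τ : ℝ) : ‖gk σ τ‖ ≤ 1 / (k0 σ * (1 + |τ|)) := by
  rw [gk_norm]
  have h0 := k0_pos him
  have hτ : 0 ≤ |τ| := abs_nonneg τ
  exact one_div_le_one_div_of_le (by positivity) (k0_le him τ)

lemma gk_le' {σ : ℂ} (him : σ.im ≠ 0) (τ : ℝ) : ‖gk σ τ‖ ≤ 1 / k0 σ := by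
  refine (gk_le him τ).trans ?_
  have h0 := k0_pos him
  have hτ : 0 ≤ |τ| := abs_nonneg τ
  apply one_div_le_one_div_of_le h0
  nlinarith

/-- the weight -/
noncomputable def wt (m : ℝ) (h : ℂ) (τ : ℝ) : ℝ := max 0 (m - ‖h‖ * (1 + |τ|)) / m ^ 3

lemma wt_nonneg {m : ℝ} (hm : 0 < m) (h : ℂ) (τ : ℝ) : 0 ≤ wt m h τ := by
  rw [wt]; positivity

lemma wt_le {m : ℝ} (hm : 0 < m) (h : ℂ) (τ : ℝ) : wt m h τ ≤ 1 / m ^ 2 := by
  rw [wt, div_le_div_iff₀ (by positivity) (by positivity)]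
  have h1 : 0 ≤ ‖h‖ * (1 + |τ|) := by positivity
  have h2 : max 0 (m - ‖h‖ * (1 + |τ|)) ≤ m := max_le hm.le (by linarith)
  nlinarith [mul_le_mul_of_nonneg_right h2 (by positivity : 0 ≤ m ^ 2)]

lemma wt_zero {m : ℝ} {h : ℂ} {τ : ℝ} (hh : m ≤ ‖h‖ * (1 + |τ|)) : wt m h τ = 0 := by
  rw [wt, max_eq_left (by linarith), zero_div]

lemma nu_eq (σ : ℂ) (m : ℝ) (d : ℂ) (τ : ℝ) :
    nu σ m d τ = ‖gk σ τ‖ ^ 2 * wt m (gk σ τ * d) τ := rfl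

lemma nu_nonneg (σ : ℂ) {m : ℝ} (hm : 0 < m) (d : ℂ) (τ : ℝ) : 0 ≤ nu σ m d τ := by
  rw [nu_eq]; exact mul_nonneg (by positivity) (wt_nonneg hm _ _)

lemma nu_le {σ : ℂ} (him : σ.im ≠ 0) {m : ℝ} (hm : 0 < m) (d : ℂ) (τ : ℝ) :
    nu σ m d τ ≤ 1 / (k0 σ ^ 2 * m ^ 2) := by
  rw [nu_eq]
  have h0 := k0_pos him
  calc ‖gk σ τ‖ ^ 2 * wt m (gk σ τ * d) τ ≤ (1 / k0 σ) ^ 2 * (1 / m ^ 2) :=
        mul_le_mul (pow_le_pow_left₀ (norm_nonneg _) (gk_le' him τ) 2) (wt_le hm _ _)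
          (wt_nonneg hm _ _) (by positivity)
    _ = 1 / (k0 σ ^ 2 * m ^ 2) := by field_simp

lemma nu_zero {σ : ℂ} (him : σ.im ≠ 0) {m : ℝ} {d : ℂ} {τ : ℝ} (hd : k1 σ * m < ‖d‖) :
    nu σ m d τ = 0 := by
  rw [nu_eq, wt_zero, mul_zero]
  rw [norm_mul, gk_norm]
  have hs : 0 < ‖(1 : ℂ) + τ * σ‖ := norm_pos_iff.2 (s_ne him τ)
  have h1 := s_le σ τ
  have h2 : 0 < k1 σ := k1_pos σ
  have hτ : 0 ≤ |τ| := abs_nonneg τ
  have e : 1 / ‖(1 : ℂ) + τ * σ‖ * ‖d‖ * (1 + |τ|) = ‖d‖ * (1 + |τ|) / ‖(1 : ℂ) + τ * σ‖ := by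
    field_simp
  rw [e, le_div_iff₀ hs]
  rcases le_or_gt m 0 with hm | hm
  · have : m * ‖(1 : ℂ) + τ * σ‖ ≤ 0 := mul_nonpos_of_nonpos_of_nonneg hm hs.le
    have : 0 ≤ ‖d‖ * (1 + |τ|) := by positivity
    linarith
  · calc m * ‖(1 : ℂ) + τ * σ‖ ≤ m * (k1 σ * (1 + |τ|)) := mul_le_mul_of_nonneg_left h1 hm.le
      _ = k1 σ * m * (1 + |τ|) := by ring
      _ ≤ ‖d‖ * (1 + |τ|) := mul_le_mul_of_nonneg_right hd.le (by positivity)

/-- the kernel -/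
noncomputable def Jk (σ : ℂ) (m : ℝ) (f : ℂ → ℂ) (τ : ℝ) (y : ℂ × ℂ) : ℂ :=
  (nu σ m y.1 τ : ℂ) * (conj (f (y.2 + gk σ τ * y.1)) * conj (f (y.2 + (1 - gk σ τ) * y.1)))

/-- the radius -/
noncomputable def R2 (σ : ℂ) (R : ℝ) : ℝ := R + k1 σ / k0 σ

/-- the support -/
def Sk (σ : ℂ) (m R : ℝ) : Set (ℂ × ℂ) :=
  Metric.closedBall (0 : ℂ) (k1 σ * m) ×ˢ Metric.closedBall (0 : ℂ) (R2 σ R)

lemma Sk_meas (σ : ℂ) (m R : ℝ) : MeasurableSet (Sk σ m R) :=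
  Metric.isClosed_closedBall.measurableSet.prod Metric.isClosed_closedBall.measurableSet

lemma Sk_vol (σ : ℂ) (m R : ℝ) : (volume : Measure (ℂ × ℂ)) (Sk σ m R) =
    (ENNReal.ofReal (k1 σ * m) ^ 2 * NNReal.pi) * (ENNReal.ofReal (R2 σ R) ^ 2 * NNReal.pi) := by
  rw [Sk, Measure.volume_eq_prod, Measure.prod_prod, Complex.volume_closedBall,
    Complex.volume_closedBall]

lemma Sk_ne (σ : ℂ) (m R : ℝ) : (volume : Measure (ℂ × ℂ)) (Sk σ m R) ≠ ⊤ := by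
  rw [Sk_vol]
  exact ENNReal.mul_ne_top (ENNReal.mul_ne_top (ENNReal.pow_ne_top ENNReal.ofReal_ne_top)
    ENNReal.coe_ne_top) (ENNReal.mul_ne_top (ENNReal.pow_ne_top ENNReal.ofReal_ne_top)
    ENNReal.coe_ne_top)

lemma Sk_real {σ : ℂ} {m R : ℝ} (hm : 0 < m) (hR : 0 ≤ R2 σ R) :
    ((volume : Measure (ℂ × ℂ)) (Sk σ m R)).toReal =
      Real.pi ^ 2 * k1 σ ^ 2 * R2 σ R ^ 2 * m ^ 2 := by
  rw [Sk_vol, ENNReal.toReal_mul, ENNReal.toReal_mul, ENNReal.toReal_mul, ENNReal.toReal_pow,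
    ENNReal.toReal_pow, ENNReal.toReal_ofReal (mul_nonneg (k1_pos σ).le hm.le),
    ENNReal.toReal_ofReal hR]
  simp only [ENNReal.coe_toReal, NNReal.coe_real_pi]
  ring

lemma gk_meas (σ : ℂ) : Measurable (gk σ) := by
  unfold gk
  exact measurable_const.div (measurable_const.add (Complex.measurable_ofReal.mul_const σ))

lemma wt_meas (m : ℝ) : Measurable fun q : ℂ × ℝ => wt m q.1 q.2 := by
  unfold wt
  have : Continuous fun q : ℂ × ℝ => max 0 (m - ‖q.1‖ * (1 + |q.2|)) / m ^ 3 := by fun_prop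
  exact this.measurable

lemma nu_meas (σ : ℂ) (m : ℝ) : Measurable fun q : ℂ × ℝ => nu σ m q.1 q.2 := by
  have h1 : Measurable fun q : ℂ × ℝ => ‖gk σ q.2‖ ^ 2 :=
    ((gk_meas σ).comp measurable_snd).norm.pow_const 2
  have h2 : Measurable fun q : ℂ × ℝ => wt m (gk σ q.2 * q.1) q.2 :=
    (wt_meas m).comp ((((gk_meas σ).comp measurable_snd).mul measurable_fst).prodMk measurable_snd)
  exact h1.mul h2

lemma prod_aux : Measurable fun q : ℝ × ℂ × ℂ => (q.2.1, q.1) :=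
  (measurable_fst.comp measurable_snd).prodMk measurable_fst

lemma comp_aux {n : ℂ → ℝ → ℝ} (h : Measurable (fun q : ℂ × ℝ => n q.1 q.2)) :
    Measurable fun q : ℝ × ℂ × ℂ => n q.2.1 q.1 := h.comp prod_aux

lemma J_aux {n : ℂ → ℝ → ℝ} (h : Measurable (fun q : ℂ × ℝ => n q.1 q.2)) {g : ℝ → ℂ}
    (hg0 : Measurable g) {f : ℂ → ℂ} (hf : Measurable f) :
    Measurable (Function.uncurry fun (τ : ℝ) (y : ℂ × ℂ) =>
      (n y.1 τ : ℂ) * (conj (f (y.2 + g τ * y.1)) * conj (f (y.2 + (1 - g τ) * y.1)))) := by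
  have hg : Measurable fun q : ℝ × ℂ × ℂ => g q.1 := hg0.comp measurable_fst
  have hd : Measurable fun q : ℝ × ℂ × ℂ => q.2.1 := measurable_fst.comp measurable_snd
  have hx : Measurable fun q : ℝ × ℂ × ℂ => q.2.2 := measurable_snd.comp measurable_snd
  have h1 : Measurable fun q : ℝ × ℂ × ℂ => ((n q.2.1 q.1 : ℝ) : ℂ) :=
    Complex.measurable_ofReal.comp (comp_aux h)
  have h2 : Measurable fun q : ℝ × ℂ × ℂ => conj (f (q.2.2 + g q.1 * q.2.1)) :=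
    Complex.continuous_conj.measurable.comp (hf.comp (hx.add (hg.mul hd)))
  have h3 : Measurable fun q : ℝ × ℂ × ℂ => conj (f (q.2.2 + (1 - g q.1) * q.2.1)) :=
    Complex.continuous_conj.measurable.comp (hf.comp (hx.add ((measurable_const.sub hg).mul hd)))
  exact h1.mul (h2.mul h3)

lemma Jk_meas (σ : ℂ) (m : ℝ) {f : ℂ → ℂ} (hf : Measurable f) :
    Measurable (Function.uncurry (Jk σ m f)) :=
  J_aux (n := nu σ m) (nu_meas σ m) (g := gk σ) (gk_meas σ) hf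

lemma K_aux {J : ℝ → ℂ × ℂ → ℂ} (hJ : Measurable (Function.uncurry J)) :
    Measurable (Function.uncurry fun τ τ' : ℝ => ∫ y : ℂ × ℂ, J τ y * conj (J τ' y)) := by
  have h1 : Measurable fun q : (ℝ × ℝ) × (ℂ × ℂ) => J q.1.1 q.2 * conj (J q.1.2 q.2) :=
    (hJ.comp ((measurable_fst.comp measurable_fst).prodMk measurable_snd)).mul
      (Complex.continuous_conj.measurable.comp
        (hJ.comp ((measurable_snd.comp measurable_fst).prodMk measurable_snd)))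
  exact (h1.stronglyMeasurable.integral_prod_right' (ν := (volume : Measure (ℂ × ℂ)))).measurable

lemma K_aux2 {J : ℝ → ℂ × ℂ → ℂ} (hJ : Measurable (Function.uncurry J)) (τ τ' : ℝ) :
    Measurable fun y : ℂ × ℂ => J τ y * conj (J τ' y) := by
  have h2 : ∀ τ, Measurable (J τ) := fun τ => hJ.comp measurable_prodMk_left
  exact (h2 τ).mul (Complex.continuous_conj.measurable.comp (h2 τ'))

lemma Jk_le {σ : ℂ} (him : σ.im ≠ 0) {m : ℝ} (hm : 0 < m) {R : ℝ} {f : ℂ → ℂ} (hf : Bd R f)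
    (τ : ℝ) (y : ℂ × ℂ) : ‖Jk σ m f τ y‖ ≤ 1 / (k0 σ ^ 2 * m ^ 2) := by
  rw [Jk, norm_mul, norm_mul, RCLike.norm_conj, RCLike.norm_conj, Complex.norm_real,
    Real.norm_of_nonneg (nu_nonneg σ hm _ _)]
  have h1 := hf.le_one (y.2 + gk σ τ * y.1)
  have h2 := hf.le_one (y.2 + (1 - gk σ τ) * y.1)
  have h3 := nu_le him hm y.1 τ
  have h4 := nu_nonneg σ hm y.1 τ
  calc nu σ m y.1 τ * (‖f (y.2 + gk σ τ * y.1)‖ * ‖f (y.2 + (1 - gk σ τ) * y.1)‖)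
      ≤ nu σ m y.1 τ * (1 * 1) := by gcongr
    _ = nu σ m y.1 τ := by ring
    _ ≤ _ := h3

lemma Jk_zero {σ : ℂ} (him : σ.im ≠ 0) {m : ℝ} (hm1 : m ≤ 1) {R : ℝ}
    {f : ℂ → ℂ} (hf : Bd R f) (τ : ℝ) (y : ℂ × ℂ) (hy : y ∉ Sk σ m R) : Jk σ m f τ y = 0 := by
  rw [Jk]
  by_cases h1 : k1 σ * m < ‖y.1‖
  · rw [nu_zero him h1, Complex.ofReal_zero, zero_mul]
  · have h2 : R2 σ R < ‖y.2‖ := by
      by_contra h3
      exact hy ⟨by rw [mem_closedBall_zero_iff]; exact not_lt.1 h1,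
        by rw [mem_closedBall_zero_iff]; exact not_lt.1 h3⟩
    have h4 : R < ‖y.2 + gk σ τ * y.1‖ := by
      have h0 := k0_pos him
      have hk := k1_pos σ
      have h5 := norm_sub_norm_le y.2 (-(gk σ τ * y.1))
      rw [norm_neg, sub_neg_eq_add, norm_mul] at h5
      have h6 : ‖gk σ τ‖ * ‖y.1‖ ≤ 1 / k0 σ * (k1 σ * m) :=
        mul_le_mul (gk_le' him τ) (not_lt.1 h1) (norm_nonneg _) (by positivity)
      have h7 : 1 / k0 σ * (k1 σ * m) ≤ k1 σ / k0 σ := by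
        rw [one_div_mul_eq_div]
        gcongr
        nlinarith
      rw [R2] at h2
      linarith
    rw [hf.supp _ h4, map_zero, zero_mul, mul_zero]

/-- the correlation kernel -/
noncomputable def Kk (σ : ℂ) (m : ℝ) (f : ℂ → ℂ) (τ τ' : ℝ) : ℂ :=
  ∫ y : ℂ × ℂ, Jk σ m f τ y * conj (Jk σ m f τ' y)

lemma R2_nonneg {σ : ℂ} (him : σ.im ≠ 0) {R : ℝ} (hR : 1 ≤ R) : 0 ≤ R2 σ R := by
  have h0 := k0_pos him
  have hk := k1_pos σ
  rw [R2]; positivity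

lemma Kk_meas (σ : ℂ) (m : ℝ) {f : ℂ → ℂ} (hf : Measurable f) :
    Measurable (Function.uncurry (Kk σ m f)) :=
  K_aux (J := Jk σ m f) (Jk_meas σ m hf)

/-- the constant of the bound of the kernel -/
noncomputable def kK (σ : ℂ) (R : ℝ) : ℝ :=
  Real.pi ^ 2 * k1 σ ^ 2 * R2 σ R ^ 2 / k0 σ ^ 4

lemma integrable_Sk {σ : ℂ} {m R : ℝ} {F : ℂ × ℂ → ℂ} (hF : Measurable F) {B : ℝ}
    (hB : ∀ y, ‖F y‖ ≤ B) (hs : ∀ y ∉ Sk σ m R, F y = 0) : Integrable F := by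
  have hi : Integrable ((Sk σ m R).indicator (fun _ => B)) := by
    rw [integrable_indicator_iff (Sk_meas σ m R)]
    exact integrableOn_const (Sk_ne σ m R) enorm_ne_top
  refine hi.mono' hF.aestronglyMeasurable (Filter.Eventually.of_forall fun y => ?_)
  by_cases hy : y ∈ Sk σ m R
  · rw [Set.indicator_of_mem hy]; exact hB y
  · rw [Set.indicator_of_notMem hy, hs y hy, norm_zero]

lemma integral_Sk_le {σ : ℂ} {m R : ℝ} {F : ℂ × ℂ → ℂ} {B : ℝ}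
    (hB : ∀ y, ‖F y‖ ≤ B) (hs : ∀ y ∉ Sk σ m R, F y = 0) :
    ‖∫ y, F y‖ ≤ B * ((volume : Measure (ℂ × ℂ)) (Sk σ m R)).toReal := by
  have h1 : ∫ y, F y = ∫ y in Sk σ m R, F y :=
    (setIntegral_eq_integral_of_forall_compl_eq_zero hs).symm
  rw [h1]
  exact norm_setIntegral_le_of_norm_le_const (lt_top_iff_ne_top.2 (Sk_ne σ m R))
    fun y _ => hB y

lemma Kk_le {σ : ℂ} (him : σ.im ≠ 0) {m : ℝ} (hm : 0 < m) (hm1 : m ≤ 1) {R : ℝ} (hR : 1 ≤ R)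
    {f : ℂ → ℂ} (hf : Bd R f) (τ τ' : ℝ) : ‖Kk σ m f τ τ'‖ ≤ kK σ R / m ^ 2 := by
  have h0 := k0_pos him
  have h1 := integral_Sk_le (σ := σ) (m := m) (R := R)
    (F := fun y => Jk σ m f τ y * conj (Jk σ m f τ' y))
    (B := (1 / (k0 σ ^ 2 * m ^ 2)) * (1 / (k0 σ ^ 2 * m ^ 2))) (fun y => by
      rw [norm_mul, RCLike.norm_conj]
      exact mul_le_mul (Jk_le him hm hf τ y) (Jk_le him hm hf τ' y) (norm_nonneg _)
        (by positivity))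
    (fun y hy => by
      change Jk σ m f τ y * conj (Jk σ m f τ' y) = 0
      rw [Jk_zero him hm1 hf τ y hy, zero_mul])
  rw [Sk_real hm (R2_nonneg him hR)] at h1
  calc ‖Kk σ m f τ τ'‖ ≤ _ := h1
    _ = kK σ R / m ^ 2 := by
        rw [kK]
        field_simp

lemma Kk_eq {σ : ℂ} (him : σ.im ≠ 0) {m : ℝ} (hm : 0 < m) (hm1 : m ≤ 1) {R : ℝ}
    {f : ℂ → ℂ} (hf : Bd R f) (τ τ' : ℝ) : Kk σ m f τ τ' =
      ∫ d : ℂ, ((nu σ m d τ * nu σ m d τ' : ℝ) : ℂ) * ∫ x : ℂ, conj (f (x + gk σ τ * d)) *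
            conj (f (x + (1 - gk σ τ) * d)) * f (x + gk σ τ' * d) *
            f (x + (1 - gk σ τ') * d) := by
  have hint : Integrable (fun y : ℂ × ℂ => Jk σ m f τ y * conj (Jk σ m f τ' y)) :=
    integrable_Sk (σ := σ) (m := m) (R := R)
      (K_aux2 (J := Jk σ m f) (Jk_meas σ m hf.meas) τ τ')
      (B := (1 / (k0 σ ^ 2 * m ^ 2)) * (1 / (k0 σ ^ 2 * m ^ 2))) (fun y => by
        rw [norm_mul, RCLike.norm_conj]
        exact mul_le_mul (Jk_le him hm hf τ y) (Jk_le him hm hf τ' y) (norm_nonneg _)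
          (by positivity))
      (fun y hy => by
        change Jk σ m f τ y * conj (Jk σ m f τ' y) = 0
        rw [Jk_zero him hm1 hf τ y hy, zero_mul])
  rw [Kk, Measure.volume_eq_prod, integral_prod _ (by rwa [← Measure.volume_eq_prod])]
  refine integral_congr_ae (Filter.Eventually.of_forall fun d => ?_)
  change ∫ x : ℂ, Jk σ m f τ (d, x) * conj (Jk σ m f τ' (d, x)) =
    ((nu σ m d τ * nu σ m d τ' : ℝ) : ℂ) * ∫ x : ℂ, conj (f (x + gk σ τ * d)) *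
            conj (f (x + (1 - gk σ τ) * d)) * f (x + gk σ τ' * d) *
            f (x + (1 - gk σ τ') * d)
  rw [← integral_const_mul]
  refine integral_congr_ae (Filter.Eventually.of_forall fun x => ?_)
  simp only [Jk, map_mul, Complex.conj_conj, Complex.conj_ofReal, Complex.ofReal_mul]
  ring

end Pool.Agent.H19.Pl
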