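import Pool.Agent.H19.Pl.Ia3

/-!
# The form of module InvA as an integral over the parameter
-/

open MeasureTheory Set
open scoped ComplexConjugate

namespace Pool.Agent.H19.Pl

open Pool.Agent.H67.Pl

/-- the product of the two remaining factors -/
noncomputable def uu (f : ℂ → ℂ) (y : ℂ × ℂ) : ℂ := f y.2 * f (y.2 + y.1)

/-- the form for a fixed parameter -/
noncomputable def Lt (σ : ℂ) (m : ℝ) (f : ℂ → ℂ) (τ : ℝ) : ℂ :=
  ∫ h : ℂ, ((wt m h τ : ℝ) : ℂ) * Qf σ f h τ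

lemma uu_meas {f : ℂ → ℂ} (hf : Measurable f) : Measurable (uu f) :=
  (hf.comp measurable_snd).mul (hf.comp (measurable_snd.add measurable_fst))

lemma uu_le {R : ℝ} {f : ℂ → ℂ} (hf : Bd R f) (y : ℂ × ℂ) : ‖uu f y‖ ≤ 1 := by
  rw [uu, norm_mul]
  calc ‖f y.2‖ * ‖f (y.2 + y.1)‖ ≤ 1 * 1 :=
        mul_le_mul (hf.le_one _) (hf.le_one _) (norm_nonneg _) zero_le_one
    _ = 1 := one_mul 1

lemma Qf_le (σ : ℂ) {R : ℝ} (hR : 0 ≤ R) {f : ℂ → ℂ} (hf : Bd R f) (h : ℂ) (τ : ℝ) :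
    ‖Qf σ f h τ‖ ≤ Real.pi * R ^ 2 := by
  rw [Qf]
  have h1 : ∀ x ∉ Metric.closedBall (0 : ℂ) R,
      f x * conj (f (x + h)) * conj (f (x + τ * σ * h)) * f (x + (1 + τ * σ) * h) = 0 := by
    intro x hx
    rw [mem_closedBall_zero_iff, not_le] at hx
    rw [hf.supp x hx]
    simp
  rw [← setIntegral_eq_integral_of_forall_compl_eq_zero h1]
  have hv : volume (Metric.closedBall (0 : ℂ) R) < ⊤ := measure_closedBall_lt_top
  have h2 := norm_setIntegral_le_of_norm_le_const (C := 1) hv (f := fun x =>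
      f x * conj (f (x + h)) * conj (f (x + τ * σ * h)) * f (x + (1 + τ * σ) * h)) (by
    intro x _
    rw [norm_mul, norm_mul, norm_mul, RCLike.norm_conj, RCLike.norm_conj]
    have a1 := hf.le_one x
    have a2 := hf.le_one (x + h)
    have a3 := hf.le_one (x + τ * σ * h)
    have a4 := hf.le_one (x + (1 + τ * σ) * h)
    calc ‖f x‖ * ‖f (x + h)‖ * ‖f (x + τ * σ * h)‖ * ‖f (x + (1 + τ * σ) * h)‖
        ≤ 1 * 1 * 1 * 1 := by gcongr
      _ = 1 := by norm_num)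
  rw [one_mul, Measure.real, Complex.volume_closedBall, ENNReal.toReal_mul, ENNReal.toReal_pow,
    ENNReal.toReal_ofReal hR] at h2
  simp only [ENNReal.coe_toReal, NNReal.coe_real_pi] at h2
  linarith

lemma Qf_aux {f : ℂ → ℂ} (hf : Measurable f) (σ : ℂ) :
    Measurable fun q : (ℂ × ℝ) × ℂ => f q.2 * conj (f (q.2 + q.1.1)) *
      conj (f (q.2 + (q.1.2 : ℂ) * σ * q.1.1)) * f (q.2 + (1 + (q.1.2 : ℂ) * σ) * q.1.1) := by
  have hx : Measurable fun q : (ℂ × ℝ) × ℂ => q.2 := measurable_snd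
  have hh : Measurable fun q : (ℂ × ℝ) × ℂ => q.1.1 := measurable_fst.comp measurable_fst
  have ht : Measurable fun q : (ℂ × ℝ) × ℂ => (q.1.2 : ℂ) * σ :=
    (Complex.measurable_ofReal.comp (measurable_snd.comp measurable_fst)).mul_const σ
  have hc : Measurable (starRingEnd ℂ) := Complex.continuous_conj.measurable
  exact (((hf.comp hx).mul (hc.comp (hf.comp (hx.add hh)))).mul
    (hc.comp (hf.comp (hx.add (ht.mul hh))))).mul
      (hf.comp (hx.add ((measurable_const.add ht).mul hh)))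

lemma Qf_meas {f : ℂ → ℂ} (hf : Measurable f) (σ : ℂ) :
    Measurable fun q : ℂ × ℝ => Qf σ f q.1 q.2 := by
  have h1 := (Qf_aux hf σ).stronglyMeasurable.integral_prod_right' (ν := (volume : Measure ℂ))
  exact h1.measurable

lemma F_meas {f : ℂ → ℂ} (hf : Measurable f) (σ : ℂ) (m : ℝ) :
    Measurable fun q : ℂ × ℝ => ((wt m q.1 q.2 : ℝ) : ℂ) * Qf σ f q.1 q.2 :=
  (Complex.measurable_ofReal.comp (wt_meas m)).mul (Qf_meas hf σ)

lemma F_le (σ : ℂ) {m : ℝ} (hm : 0 < m) {R : ℝ} (hR : 0 ≤ R) {f : ℂ → ℂ} (hf : Bd R f)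
    (h : ℂ) (τ : ℝ) : ‖((wt m h τ : ℝ) : ℂ) * Qf σ f h τ‖ ≤
      (Metric.closedBall (0 : ℂ) (m / (1 + |τ|))).indicator
        (fun _ => 1 / m ^ 2 * (Real.pi * R ^ 2)) h := by
  have hτ : 0 ≤ |τ| := abs_nonneg τ
  rw [norm_mul, Complex.norm_real, Real.norm_of_nonneg (wt_nonneg hm _ _)]
  by_cases hh : h ∈ Metric.closedBall (0 : ℂ) (m / (1 + |τ|))
  · rw [Set.indicator_of_mem hh]
    exact mul_le_mul (wt_le hm _ _) (Qf_le σ hR hf h τ) (norm_nonneg _) (by positivity)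
  · rw [Set.indicator_of_notMem hh]
    rw [mem_closedBall_zero_iff, not_le, div_lt_iff₀ (by positivity)] at hh
    rw [wt_zero hh.le, zero_mul]

lemma ball_int (m : ℝ) (hm : 0 < m) (τ c : ℝ) :
    ∫ h : ℂ, (Metric.closedBall (0 : ℂ) (m / (1 + |τ|))).indicator (fun _ => c) h =
      Real.pi * (m / (1 + |τ|)) ^ 2 * c := by
  have hτ : 0 ≤ |τ| := abs_nonneg τ
  rw [integral_indicator_const _ Metric.isClosed_closedBall.measurableSet, Measure.real,
    Complex.volume_closedBall, ENNReal.toReal_mul, ENNReal.toReal_pow,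
    ENNReal.toReal_ofReal (by positivity)]
  simp only [ENNReal.coe_toReal, NNReal.coe_real_pi, smul_eq_mul]
  ring

lemma ball_integrable (m τ c : ℝ) :
    Integrable ((Metric.closedBall (0 : ℂ) (m / (1 + |τ|))).indicator (fun _ => c)) := by
  rw [integrable_indicator_iff Metric.isClosed_closedBall.measurableSet]
  exact integrableOn_const measure_closedBall_lt_top.ne enorm_ne_top

/-- the constant of the bound of the form -/
noncomputable def M1 (R : ℝ) : ℝ := Real.pi ^ 2 * R ^ 2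

lemma fin_le {m : ℝ} (hm : 0 < m) (R τ : ℝ) :
    Real.pi * (m / (1 + |τ|)) ^ 2 * (1 / m ^ 2 * (Real.pi * R ^ 2)) ≤ M1 R * (1 + τ ^ 2)⁻¹ := by
  have hτ : 0 ≤ |τ| := abs_nonneg τ
  have e : Real.pi * (m / (1 + |τ|)) ^ 2 * (1 / m ^ 2 * (Real.pi * R ^ 2)) =
      M1 R * ((1 + |τ|) ^ 2)⁻¹ := by
    rw [M1]
    field_simp
  rw [e]
  apply mul_le_mul_of_nonneg_left _ (by rw [M1]; positivity)
  apply inv_anti₀ (by positivity)
  nlinarith [sq_abs τ]

lemma Fn_le (σ : ℂ) {m : ℝ} (hm : 0 < m) {R : ℝ} (hR : 0 ≤ R) {f : ℂ → ℂ} (hf : Bd R f)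
    (τ : ℝ) : ∫ h : ℂ, ‖((wt m h τ : ℝ) : ℂ) * Qf σ f h τ‖ ≤ M1 R * (1 + τ ^ 2)⁻¹ := by
  refine le_trans (integral_mono_of_nonneg (Filter.Eventually.of_forall fun h => norm_nonneg _)
    (ball_integrable m τ _) (Filter.Eventually.of_forall fun h => F_le σ hm hR hf h τ)) ?_
  rw [ball_int m hm]
  exact fin_le hm R τ

lemma F_integrable (σ : ℂ) {m : ℝ} (hm : 0 < m) {R : ℝ} (hR : 0 ≤ R) {f : ℂ → ℂ} (hf : Bd R f) :
    Integrable (Function.uncurry fun (h : ℂ) (τ : ℝ) => ((wt m h τ : ℝ) : ℂ) * Qf σ f h τ)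
      ((volume : Measure ℂ).prod (volume : Measure ℝ)) := by
  have hmeas := F_meas hf.meas σ m
  refine (integrable_prod_iff' (f := Function.uncurry fun (h : ℂ) (τ : ℝ) =>
    ((wt m h τ : ℝ) : ℂ) * Qf σ f h τ) hmeas.aestronglyMeasurable).2 ⟨?_, ?_⟩
  · refine Filter.Eventually.of_forall fun τ => ?_
    refine (ball_integrable m τ _).mono' ?_ (Filter.Eventually.of_forall fun h =>
      F_le σ hm hR hf h τ)
    exact (hmeas.comp measurable_prodMk_right).aestronglyMeasurable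
  · have hb : Integrable fun τ : ℝ => M1 R * (1 + τ ^ 2)⁻¹ :=
      integrable_inv_one_add_sq.const_mul _
    refine hb.mono' ?_ (Filter.Eventually.of_forall fun τ => ?_)
    · exact (hmeas.norm.stronglyMeasurable.integral_prod_left' (μ := (volume : Measure ℂ)))
        |>.aestronglyMeasurable
    · rw [Real.norm_of_nonneg (integral_nonneg fun h => norm_nonneg _)]
      exact Fn_le σ hm hR hf τ

lemma Lam_eq (σ : ℂ) {m : ℝ} (hm : 0 < m) {R : ℝ} (hR : 0 ≤ R) {f : ℂ → ℂ} (hf : Bd R f) :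
    Lam σ m f = ∫ τ : ℝ, Lt σ m f τ :=
  integral_integral_swap (F_integrable σ hm hR hf)

lemma Lt_le (σ : ℂ) {m : ℝ} (hm : 0 < m) {R : ℝ} (hR : 0 ≤ R) {f : ℂ → ℂ} (hf : Bd R f)
    (τ : ℝ) : ‖Lt σ m f τ‖ ≤ M1 R * (1 + τ ^ 2)⁻¹ :=
  (norm_integral_le_integral_norm _).trans (Fn_le σ hm hR hf τ)

lemma Lt_meas {f : ℂ → ℂ} (hf : Measurable f) (σ : ℂ) (m : ℝ) : Measurable (Lt σ m f) :=
  ((F_meas hf σ m).stronglyMeasurable.integral_prod_left' (μ := (volume : Measure ℂ))).measurable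

lemma uJ_aux {u : ℂ × ℂ → ℂ} (hu : Measurable u) {J : ℝ → ℂ × ℂ → ℂ}
    (hJ : Measurable (Function.uncurry J)) (τ : ℝ) : Measurable fun y => u y * J τ y :=
  hu.mul (hJ.comp measurable_prodMk_left)

lemma Lt_eq {σ : ℂ} (him : σ.im ≠ 0) {m : ℝ} (hm : 0 < m) (hm1 : m ≤ 1) {R : ℝ}
    {f : ℂ → ℂ} (hf : Bd R f) (τ : ℝ) :
    Lt σ m f τ = ∫ y : ℂ × ℂ, uu f y * Jk σ m f τ y := by
  have hint : Integrable (fun y : ℂ × ℂ => uu f y * Jk σ m f τ y) :=
    integrable_Sk (σ := σ) (m := m) (R := R)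
      (uJ_aux (u := uu f) (uu_meas hf.meas) (J := Jk σ m f) (Jk_meas σ m hf.meas) τ)
      (B := 1 * (1 / (k0 σ ^ 2 * m ^ 2))) (fun y => by
        rw [norm_mul]
        exact mul_le_mul (uu_le hf y) (Jk_le him hm hf τ y) (norm_nonneg _) zero_le_one)
      (fun y hy => by
        rw [Jk_zero him hm1 hf τ y hy, mul_zero])
  rw [Lt, integral_cmul (gk_ne him τ), Measure.volume_eq_prod,
    integral_prod _ (by rwa [← Measure.volume_eq_prod]), ← integral_const_mul]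
  refine integral_congr_ae (Filter.Eventually.of_forall fun d => ?_)
  change ((‖gk σ τ‖ ^ 2 : ℝ) : ℂ) * (((wt m (gk σ τ * d) τ : ℝ) : ℂ) * Qf σ f (gk σ τ * d) τ) =
    ∫ x : ℂ, uu f (d, x) * Jk σ m f τ (d, x)
  rw [← mul_assoc, ← Complex.ofReal_mul, ← nu_eq, Qf, ← integral_const_mul]
  refine integral_congr_ae (Filter.Eventually.of_forall fun x => ?_)
  have hs : (1 + (τ : ℂ) * σ) * gk σ τ = 1 := by
    rw [gk, mul_one_div, div_self (s_ne him τ)]
  have e1 : (τ : ℂ) * σ * (gk σ τ * d) = (1 - gk σ τ) * d := by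
    linear_combination d * hs
  have e2 : (1 + (τ : ℂ) * σ) * (gk σ τ * d) = d := by
    linear_combination d * hs
  change (nu σ m d τ : ℂ) * (f x * conj (f (x + gk σ τ * d)) *
    conj (f (x + (τ : ℂ) * σ * (gk σ τ * d))) * f (x + (1 + (τ : ℂ) * σ) * (gk σ τ * d))) =
    (f x * f (x + d)) * ((nu σ m d τ : ℂ) * (conj (f (x + gk σ τ * d)) *
      conj (f (x + (1 - gk σ τ) * d))))
  rw [e1, e2]
  ring

end Pool.Agent.H19.Pl
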